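import Mathlib
import Pool.Agent.Lib.MP_8f946f_al.Defs
import Pool.Agent.Lib.MP_8f946f_al.Main
import Pool.Agent.Lib.MP_8f946f_al.BD.Comp
import Pool.Agent.Lib.MP_8f946f_al.BD.Sol

/-!
# Finite dimensional algebras over large fields in varieties with a monic identity

Let `V` be a variety of Lie algebras over a field `F` which satisfies a monic identity, i.e. an
identity of the form `[(ad x)^k f, g] = ∑_{j<k} c_j(ad x) [(ad x)^j f, g] + w`, with `c_j ∈ F[X]`
and `w` in the ideal `[A + B, [A, B]]` of the free Lie algebra, `A` and `B` being the ideals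
generated by `f` and by `g`. Then there is a number `D` such that every algebra in `V` which is a
Lie algebra of finite dimension over a field `K`, containing `F`, with at least `D` elements is
soluble. If `F` is finite, this holds for all locally residually finite varieties `V`.
-/

namespace Pool.Agent.Results.MP_8f946f_al.LargeFields

open Pool.Agent.Lib.MP_8f946f_al

theorem result {F : Type} [Field F] (Γ : Set (FreeLieAlgebra F ℕ))
    (h : HasMonicIdentity Γ ∨ (Finite F ∧ LocallyRF Γ)) :
    ∃ D : ℕ, ∀ (K Q : Type) [Field K] [Algebra F K] [LieRing Q] [LieAlgebra F Q] [LieAlgebra K Q]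
      [IsScalarTower F K Q], Satisfies Γ Q → FiniteDimensional K Q →
      (∃ s : Finset K, D ≤ s.card) →
      LieAlgebra.derivedSeries K Q (Module.finrank K Q) = ⊥ := by
  have hm : HasMonicIdentity Γ := by
    rcases h with h | ⟨hF, h⟩
    · exact h
    · exact hasMonicIdentity_of_locallyRF h
  obtain ⟨k, c, w, hw, hid⟩ := hm
  obtain ⟨D, hD⟩ := BD.hm_of_monic k c w hw
  refine ⟨D, fun K Q _ _ _ _ _ _ hQ _ hs => ?_⟩
  exact BD.derived_bot (hD K Q (hid Q hQ) hs) _ le_rfl

end Pool.Agent.Results.MP_8f946f_al.LargeFields
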