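import Mathlib
import Pool.Agent.Lib.MP_8f946f_al.Defs
import Pool.Agent.Lib.MP_8f946f_al.Main
import Pool.Agent.Lib.MP_8f946f_al.Sol.Defs
import Pool.Agent.Lib.MP_8f946f_al.CP.Defs
import Pool.Agent.Lib.MP_8f946f_al.CP.DefsB
import Pool.Agent.Lib.MP_8f946f_al.CP.RFIN

/-!
# Locally residually finite varieties of Lie algebras over a finite field

Let `F` be a finite field. Every locally residually finite variety of Lie algebras over `F`
satisfies a monic identity, i.e. an identity of the form
`[(ad x)^k f, g] = ∑_{j<k} c_j(ad x) [(ad x)^j f, g] + w`,
with `c_j ∈ F[X]` and `w` in the ideal `[A + B, [A, B]]` of the free Lie algebra, `A` and `B` being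
the ideals generated by `f` and by `g`.

Conversely, let `V` be a variety each of whose finitely generated algebras `L` has a soluble ideal
`R` such that `L/R` satisfies the Capelli identities of some order. If `V` satisfies a monic
identity, then its finitely generated algebras are nilpotent-by-finite and residually finite. So,
among these varieties, the locally residually finite ones are exactly those with a monic identity.

The condition on `V` holds if the finitely generated algebras in `V` are soluble-by-finite (for
example if `V` is soluble), and it holds if `V` is generated by algebras which have a soluble ideal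
of derived length at most `l` with a quotient which embeds into a Lie algebra of dimension at most
`d` over a field containing `F`, for some fixed `l` and `d`.
-/

namespace Pool.Agent.Results.MP_8f946f_al.SolubleByCapelli

open Pool.Agent.Lib.MP_8f946f_al Pool.Agent.Lib.MP_8f946f_al.Sol Pool.Agent.Lib.MP_8f946f_al.CP

theorem result {F : Type} [Field F] [Finite F] (Γ : Set (FreeLieAlgebra F ℕ)) :
    (LocallyRF Γ → HasMonicIdentity Γ) ∧
    (LocallySolubleByCapelli Γ → (LocallyRF Γ ↔ HasMonicIdentity Γ)) ∧
    (LocallySolubleByCapelli Γ → HasMonicIdentity Γ → LocallyNilpotentByFinite Γ) ∧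
    (LocallySolubleByFinite Γ → LocallySolubleByCapelli Γ) ∧
    (GeneratedBySolubleByLinear Γ → LocallySolubleByCapelli Γ) :=
  ⟨fun h => hasMonicIdentity_of_locallyRF h, fun hS => (iff_of_capelli hS).1,
    fun hS => (iff_of_capelli hS).2, specEX.sbf F Γ, specBT specEX F Γ⟩

end Pool.Agent.Results.MP_8f946f_al.SolubleByCapelli
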